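import Mathlib

/-!
# Finite `p`-groups acting on abelian groups killed by `p`
-/

set_option autoImplicit false

namespace Pool.Agent.Q112.RigG

universe u

variable {p : ℕ} [Fact p.Prime] {P : Type} [Group P] [Finite P]

theorem exists_fixed_aux (hP : IsPGroup p P) {V : Type u} [AddCommGroup V] [Module (ZMod p) V]
    (a : P →* AddMonoid.End V) (U : AddSubgroup V) (hU : ∀ g, ∀ u ∈ U, a g u ∈ U) (u : V)
    (hu : u ∈ U) (hu0 : u ≠ 0) : ∃ w ∈ U, w ≠ 0 ∧ ∀ g, a g w = w := by
  let W : Submodule (ZMod p) V := Submodule.span (ZMod p) (Set.range fun g : P => a g u)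
  have hWU : ∀ w ∈ W, w ∈ U := by
    intro w hw
    refine Submodule.span_induction (p := fun w _ => w ∈ U) ?_ U.zero_mem
      (fun _ _ _ _ h1 h2 => U.add_mem h1 h2) ?_ hw
    · rintro _ ⟨g, rfl⟩
      exact hU g u hu
    · intro c x _ hx
      obtain ⟨n, rfl⟩ := ZMod.natCast_zmod_surjective c
      rw [Nat.cast_smul_eq_nsmul]
      exact U.nsmul_mem hx n
  have hst : ∀ g, ∀ w ∈ W, a g w ∈ W := by
    intro g w hw
    refine Submodule.span_induction (p := fun w _ => a g w ∈ W) ?_ ?_ ?_ ?_ hw
    · rintro _ ⟨h, rfl⟩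
      apply Submodule.subset_span
      refine ⟨g * h, ?_⟩
      change a (g * h) u = a g (a h u)
      rw [map_mul]
      rfl
    · rw [map_zero]
      exact W.zero_mem
    · intro x y _ _ h1 h2
      rw [map_add]
      exact W.add_mem h1 h2
    · intro c x _ hx
      obtain ⟨n, rfl⟩ := ZMod.natCast_zmod_surjective c
      rw [Nat.cast_smul_eq_nsmul, map_nsmul, ← Nat.cast_smul_eq_nsmul (ZMod p)]
      exact W.smul_mem _ hx
  have hfin : Module.Finite (ZMod p) W := by
    apply Module.Finite.span_of_finite
    exact Set.finite_range _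
  have hfin' : Finite W := Module.finite_of_finite (ZMod p)
  let _ : MulAction P W :=
    { smul := fun g w => ⟨a g w, hst g w w.2⟩
      one_smul := fun w => by
        apply Subtype.ext
        change a 1 w = w
        rw [map_one]
        rfl
      mul_smul := fun g h w => by
        apply Subtype.ext
        change a (g * h) w = a g (a h w)
        rw [map_mul]
        rfl }
  have huW : u ∈ W := by
    apply Submodule.subset_span
    refine ⟨1, ?_⟩
    change a 1 u = u
    rw [map_one]
    rfl
  have hnt : Nontrivial W := ⟨⟨⟨u, huW⟩, 0, fun e => hu0 (congrArg Subtype.val e)⟩⟩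
  have hdvd : p ∣ Nat.card W := by
    rw [Module.natCard_eq_pow_finrank (K := ZMod p) (V := W), Nat.card_zmod]
    exact dvd_pow_self p (Module.finrank_pos (R := ZMod p) (M := W)).ne'
  obtain ⟨b, hb, hb0⟩ := hP.exists_fixed_point_of_prime_dvd_card_of_fixed_point W hdvd (a := 0) (by
    intro g
    apply Subtype.ext
    change a g 0 = 0
    rw [map_zero])
  refine ⟨b, hWU _ b.2, fun e => hb0 (Subtype.ext e.symm), fun g => ?_⟩
  exact congrArg Subtype.val (hb g)

/-- a nonzero stable subgroup contains a nonzero fixed vector -/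
theorem exists_fixed (hP : IsPGroup p P) {V : Type u} [AddCommGroup V] (hp : ∀ v : V, p • v = 0)
    (a : P →* AddMonoid.End V) (U : AddSubgroup V) (hU : ∀ g, ∀ u ∈ U, a g u ∈ U) (u : V)
    (hu : u ∈ U) (hu0 : u ≠ 0) : ∃ w ∈ U, w ≠ 0 ∧ ∀ g, a g w = w :=
  @exists_fixed_aux p _ P _ _ hP V _ (AddCommGroup.zmodModule hp) a U hU u hu hu0

/-- the fixed subgroup -/
def inv {V : Type u} [AddCommGroup V] (a : P →* AddMonoid.End V) : AddSubgroup V where
  carrier := {v | ∀ g, a g v = v}
  add_mem' hv hw g := by rw [map_add, hv g, hw g]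
  zero_mem' g := map_zero _
  neg_mem' hv g := by rw [map_neg, hv g]

/-- translation of functions -/
def trans (P : Type) [Group P] (W : Type u) [AddCommGroup W] : P →* AddMonoid.End (P → W) where
  toFun g := { toFun := fun φ x => φ (x * g)
               map_zero' := rfl
               map_add' := fun _ _ => rfl }
  map_one' := by
    ext φ x
    change φ (x * 1) = φ x
    rw [mul_one]
  map_mul' g h := by
    ext φ x
    change φ (x * (g * h)) = φ (x * g * h)
    rw [mul_assoc]

theorem trans_apply (W : Type u) [AddCommGroup W] (g x : P) (φ : P → W) :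
    trans P W g φ x = φ (x * g) := rfl

/-- **Lemma E.** -/
theorem lemmaE (hP : IsPGroup p P) {V : Type u} [AddCommGroup V] (hp : ∀ v : V, p • v = 0)
    (a : P →* AddMonoid.End V) (τ : V →+ V) (hτ1 : ∀ v g, a g (τ v) = τ v)
    (hτ2 : ∀ w, (∀ g, a g w = w) → τ w = w)
    (hH : ∀ c : P → V, (∀ g h, c (g * h) = c g + a g (c h)) → ∃ v, ∀ g, c g = a g v - v) :
    (∀ v, (∀ g, τ (a g v) = 0) → v = 0) ∧
      ∀ φ : P → V, (∀ g h, a h (φ g) = φ g) → ∃ v, ∀ g, τ (a g v) = φ g := by
  have amul : ∀ g h v, a (g * h) v = a g (a h v) := fun g h v => by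
    rw [map_mul]
    rfl
  have aone : ∀ v, a 1 v = v := fun v => by
    rw [map_one]
    rfl
  have hinj : ∀ v, (∀ g, τ (a g v) = 0) → v = 0 := by
    intro v hv
    by_contra hv0
    let U : AddSubgroup V :=
      { carrier := {v | ∀ g, τ (a g v) = 0}
        add_mem' := fun hv hw g => by rw [map_add, map_add, hv g, hw g, add_zero]
        zero_mem' := fun g => by rw [map_zero, map_zero]
        neg_mem' := fun hv g => by rw [map_neg, map_neg, hv g, neg_zero] }
    obtain ⟨w, hw, hw0, hwf⟩ := exists_fixed hP hp a U (by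
      intro g u hu h
      rw [← amul]
      exact hu _) v hv hv0
    apply hw0
    have := hw 1
    rw [aone, hτ2 w hwf] at this
    exact this
  refine ⟨hinj, ?_⟩
  let W := inv a
  let θ : V →+ (P → W) :=
    { toFun := fun v g => ⟨τ (a g v), fun h => hτ1 _ h⟩
      map_zero' := by
        funext g
        apply Subtype.ext
        change τ (a g 0) = 0
        rw [map_zero, map_zero]
      map_add' := fun v w => by
        funext g
        apply Subtype.ext
        change τ (a g (v + w)) = τ (a g v) + τ (a g w)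
        rw [map_add, map_add] }
  have hθ : ∀ v g, (θ v g : V) = τ (a g v) := fun _ _ => rfl
  have hθinj : Function.Injective θ := by
    rw [injective_iff_map_eq_zero]
    intro v hv
    apply hinj
    intro g
    rw [← hθ, hv]
    rfl
  have hθa : ∀ g v, θ (a g v) = trans P W g (θ v) := by
    intro g v
    funext x
    apply Subtype.ext
    rw [trans_apply, hθ, hθ, ← amul]
  let R : AddSubgroup (P → W) := θ.range
  have hR : ∀ g, R ≤ R.comap (trans P W g) := by
    rintro g _ ⟨v, rfl⟩
    exact ⟨a g v, hθa g v⟩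
  let b : P →* AddMonoid.End ((P → W) ⧸ R) :=
    { toFun := fun g => QuotientAddGroup.map R R (trans P W g) (hR g)
      map_one' := by
        apply AddMonoidHom.ext
        intro q
        obtain ⟨φ, rfl⟩ := QuotientAddGroup.mk_surjective q
        change QuotientAddGroup.mk (trans P W 1 φ) = QuotientAddGroup.mk φ
        rw [map_one]
        rfl
      map_mul' := fun g h => by
        apply AddMonoidHom.ext
        intro q
        obtain ⟨φ, rfl⟩ := QuotientAddGroup.mk_surjective q
        change QuotientAddGroup.mk (trans P W (g * h) φ) =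
          QuotientAddGroup.mk (trans P W g (trans P W h φ))
        rw [map_mul]
        rfl }
  have hsurj : ∀ φ : P → W, φ ∈ R := by
    intro φ
    by_contra hφ
    obtain ⟨q, -, hq0, hq⟩ := exists_fixed hP (V := (P → W) ⧸ R) (by
      intro q
      obtain ⟨φ, rfl⟩ := QuotientAddGroup.mk_surjective q
      rw [← QuotientAddGroup.mk_nsmul]
      have : p • φ = 0 := by
        funext g
        apply Subtype.ext
        change p • (φ g : V) = 0
        exact hp _
      rw [this]
      rfl) b ⊤ (fun _ _ _ => trivial) (QuotientAddGroup.mk φ) trivial (by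
      intro e
      exact hφ ((QuotientAddGroup.eq_zero_iff φ).1 e))
    obtain ⟨ψ, rfl⟩ := QuotientAddGroup.mk_surjective q
    have h1 : ∀ g, ∃ v, θ v = trans P W g ψ - ψ := by
      intro g
      have h2 : (QuotientAddGroup.mk (trans P W g ψ) : (P → W) ⧸ R) = QuotientAddGroup.mk ψ := hq g
      rw [eq_comm, QuotientAddGroup.eq] at h2
      obtain ⟨v, hv⟩ := h2
      exact ⟨v, by rw [hv]; abel⟩
    choose c hc using h1
    obtain ⟨v, hv⟩ := hH c (by
      intro g h
      apply hθinj
      rw [map_add, hθa, hc, hc, hc, map_sub, map_mul]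
      change trans P W g (trans P W h ψ) - ψ = _
      abel)
    have h3 : ∀ g, trans P W g (ψ - θ v) = ψ - θ v := by
      intro g
      rw [map_sub, ← hθa]
      have := hc g
      rw [hv g, map_sub] at this
      have h4 : trans P W g ψ = θ (a g v) - θ v + ψ := by
        rw [this]; abel
      rw [h4]
      abel
    apply hq0
    rw [QuotientAddGroup.eq_zero_iff]
    refine ⟨v + ((ψ - θ v) 1 : V), ?_⟩
    rw [map_add]
    have h5 : θ ((ψ - θ v) 1 : V) = ψ - θ v := by
      funext g
      apply Subtype.ext
      rw [hθ, ((ψ - θ v) 1).2 g, hτ2 _ ((ψ - θ v) 1).2]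
      have := congrFun (h3 g) 1
      rw [trans_apply, one_mul] at this
      rw [this]
    rw [h5]
    abel
  intro φ hφ
  obtain ⟨v, hv⟩ := hsurj (fun g => ⟨φ g, fun h => hφ g h⟩)
  refine ⟨v, fun g => ?_⟩
  rw [← hθ, hv]

end Pool.Agent.Q112.RigG
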