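import Pool.Agent.Q112.RigG.Fam

/-!
# The group algebra `B[P]`
-/

set_option autoImplicit false

namespace Pool.Agent.Q112.RigG

open CategoryTheory Abelian MulOpposite Pool.Agent.Q112.Rig

universe u

theorem family_iff {B A : Type u} [Ring B] [Ring A] {P : Type} [Group P] [Fintype P]
    {p : ℕ} [Fact p.Prime] (hP : IsPGroup p P) (hB : (p : B) = 0) (D : GExt Bᵐᵒᵖ Aᵐᵒᵖ P)
    (k : ℕ) (hk : 1 ≤ k) (m : ℕ) :
    (∃ M : Fin m → ModuleCat.{u} Aᵐᵒᵖ, RigidFamily A k m M) ↔
      ∃ N : Fin m → ModuleCat.{u} Bᵐᵒᵖ, RigidFamily B k m N := by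
  classical
  have hB' : (p : Bᵐᵒᵖ) = 0 := by
    apply unop_injective
    rw [unop_natCast, hB, unop_zero]
  have hN : ∀ (N : Type u) [AddCommGroup N] [Module Bᵐᵒᵖ N] (n : N), p • n = 0 := by
    intro N _ _ n
    rw [← Nat.cast_smul_eq_nsmul Bᵐᵒᵖ, hB', zero_smul]
  constructor
  · rintro ⟨M, hM⟩
    have key : ∀ q, ∃ (N : ModuleCat.{u} Bᵐᵒᵖ), Nonempty (IndG D N ≃ₗ[Aᵐᵒᵖ] M q) := by
      intro q
      let _ : Module Bᵐᵒᵖ (M q) := Module.compHom (M q) D.f
      have _ : Cmp D (M q) := ⟨fun _ _ => rfl⟩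
      exact exists_ind D hP (M := M q) (hN (M q)) (hM.ext q q 1 le_rfl hk)
    choose N e using key
    have e' := fun q => (e q).some
    refine ⟨N, ?_, ?_, ?_, ?_⟩
    · intro q
      have _ := hM.fin q
      exact finite_of_ind D (Module.Finite.equiv (e' q).symm)
    · intro q
      exact indec_of_ind D (indec_equiv (e' q).symm (hM.indec q))
    · intro q q' hq
      refine ⟨fun f => ?_⟩
      obtain ⟨g⟩ := ind_equiv D f
      exact (hM.noniso q q' hq).false ((e' q).symm.trans (g.trans (e' q')))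
    · intro q q' i hi hik
      obtain ⟨j, rfl⟩ : ∃ j, i = j + 1 := ⟨i - 1, by omega⟩
      refine (ext_ind_ind D (N q) (N q') j).1 ?_
      refine ext_iso_left (X := M q) (LinearEquiv.toModuleIso (e' q).symm) _ ?_
      exact ext_iso_right (Y := M q') (LinearEquiv.toModuleIso (e' q').symm) _
        (hM.ext q q' (j + 1) hi hik)
  · rintro ⟨N, hNN⟩
    refine ⟨fun q => ModuleCat.of Aᵐᵒᵖ (IndG D (N q)), ?_, ?_, ?_, ?_⟩
    · intro q
      exact ind_finite D (hNN.fin q)
    · intro q
      exact ind_of_indec D hP (hN (N q)) (hNN.indec q)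
    · intro q q' hq
      refine ⟨fun f => ?_⟩
      obtain ⟨g⟩ := equiv_of_ind D f
      exact (hNN.noniso q q' hq).false g
    · intro q q' i hi hik
      obtain ⟨j, rfl⟩ : ∃ j, i = j + 1 := ⟨i - 1, by omega⟩
      exact (ext_ind_ind D (N q) (N q') j).2 (hNN.ext q q' (j + 1) hi hik)

section alg

variable (B : Type u) [Ring B] (P : Type) [Group P] [Fintype P]

/-- the action of group elements on right modules -/
noncomputable def yy : P →* (MonoidAlgebra B P)ᵐᵒᵖ where
  toFun g := op (MonoidAlgebra.single g⁻¹ 1)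
  map_one' := by
    rw [inv_one]
    rfl
  map_mul' g h := by
    rw [← op_mul, MonoidAlgebra.single_mul_single, mul_inv_rev, one_mul]

theorem ga_ext (N : Type u) [AddCommGroup N] [Module Bᵐᵒᵖ N] (Y : P →* Module.End Bᵐᵒᵖ N) :
    ∃ ρ : (MonoidAlgebra B P)ᵐᵒᵖ →+* AddMonoid.End N,
      (∀ (t : Bᵐᵒᵖ) v, ρ (op (MonoidAlgebra.single 1 t.unop)) v = t • v) ∧
      ∀ g v, ρ (yy B P g) v = Y g v := by
  let F : B →+* (AddMonoid.End N)ᵐᵒᵖ :=
    { toFun := fun b => op (Module.toAddMonoidEnd Bᵐᵒᵖ N (op b))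
      map_one' := by rw [op_one, map_one, op_one]
      map_mul' := fun b c => by rw [op_mul, map_mul, op_mul]
      map_zero' := by rw [op_zero, map_zero, op_zero]
      map_add' := fun b c => by rw [MulOpposite.op_add, map_add, MulOpposite.op_add] }
  let G : P →* (AddMonoid.End N)ᵐᵒᵖ :=
    { toFun := fun g => op (Y g⁻¹).toAddMonoidHom
      map_one' := by
        rw [inv_one, map_one]
        rfl
      map_mul' := fun g h => by
        rw [mul_inv_rev, map_mul]
        rfl }
  have hFG : ∀ x y, Commute (F x) (G y) := by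
    intro b g
    apply unop_injective
    apply AddMonoidHom.ext
    intro v
    change Y g⁻¹ (op b • v) = op b • Y g⁻¹ v
    rw [map_smul]
  let Φ := MonoidAlgebra.liftNCRingHom F G hFG
  have hΦ : ∀ g b, Φ (MonoidAlgebra.single g b) = F b * G g := fun g b =>
    MonoidAlgebra.liftNC_single _ _ _ _
  refine ⟨{ toFun := fun s => (Φ s.unop).unop
            map_one' := by rw [unop_one, map_one, unop_one]
            map_mul' := fun s t => by rw [unop_mul, map_mul, unop_mul]
            map_zero' := by rw [unop_zero, map_zero, unop_zero]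
            map_add' := fun s t => by rw [MulOpposite.unop_add, map_add, MulOpposite.unop_add] }, ?_, ?_⟩
  · intro t v
    change (Φ (MonoidAlgebra.single 1 t.unop)).unop v = t • v
    rw [hΦ, map_one, mul_one]
    rfl
  · intro g v
    change (Φ (MonoidAlgebra.single g⁻¹ 1)).unop v = Y g v
    rw [hΦ, map_one, one_mul]
    change Y g⁻¹⁻¹ v = Y g v
    rw [inv_inv]

theorem ga_gen (s : MonoidAlgebra B P) : ∃ t : P → B,
    s = ∑ g : P, MonoidAlgebra.single g⁻¹ (1 : B) * MonoidAlgebra.single 1 (t g) := by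
  classical
  induction s using MonoidAlgebra.induction_linear with
  | zero => exact ⟨0, by simp⟩
  | add y z hy hz =>
    obtain ⟨t, ht⟩ := hy
    obtain ⟨t', ht'⟩ := hz
    refine ⟨t + t', ?_⟩
    rw [ht, ht', ← Finset.sum_add_distrib]
    apply Finset.sum_congr rfl
    intro g _
    rw [Pi.add_apply, MonoidAlgebra.single_add, mul_add]
  | single g b =>
    refine ⟨Pi.single g⁻¹ b, ?_⟩
    rw [Finset.sum_eq_single g⁻¹]
    · rw [Pi.single_eq_same, inv_inv, MonoidAlgebra.single_mul_single, one_mul, mul_one]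
    · intro h _ hh
      rw [Pi.single_eq_of_ne hh, MonoidAlgebra.single_zero, mul_zero]
    · intro h
      exact absurd (Finset.mem_univ _) h

/-- the group algebra as an abstract group ring -/
noncomputable def gaExt : GExt Bᵐᵒᵖ (MonoidAlgebra B P)ᵐᵒᵖ P where
  f := RingHom.op (MonoidAlgebra.singleOneRingHom : B →+* MonoidAlgebra B P)
  y := yy B P
  comm g t := by
    apply unop_injective
    change MonoidAlgebra.single 1 t.unop * MonoidAlgebra.single g⁻¹ (1 : B) =
      MonoidAlgebra.single g⁻¹ (1 : B) * MonoidAlgebra.single 1 t.unop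
    rw [MonoidAlgebra.single_mul_single, MonoidAlgebra.single_mul_single, one_mul, mul_one, one_mul,
      mul_one]
  gen s := by
    obtain ⟨t, ht⟩ := ga_gen B P s.unop
    refine ⟨fun g => op (t g), ?_⟩
    apply unop_injective
    rw [ht, Finset.unop_sum]
    rfl
  ext N _ _ Y := ga_ext B P N Y

theorem o_ga {p : ℕ} [Fact p.Prime] (hP : IsPGroup p P) (hB : (p : B) = 0) (k : ℕ) (hk : 1 ≤ k) :
    o (MonoidAlgebra B P) k = o B k := by
  unfold o
  congr 1
  funext m
  rw [family_iff hP hB (gaExt B P) k hk m]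

end alg

end Pool.Agent.Q112.RigG
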