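import Pool.Agent.Q112.RigG.Norm

/-!
# Rigid families over `T` and over `S = T[P]`
-/

set_option autoImplicit false

namespace Pool.Agent.Q112.RigG

open CategoryTheory Abelian Pool.Agent.Q112.Rig

universe u

variable {T S : Type u} [Ring T] [Ring S] {P : Type} [Group P] [Fintype P]
  (D : GExt T S P)

/-- constant functions -/
def cst (N : Type u) [AddCommGroup N] [Module T N] : N →ₗ[T] IndG D N where
  toFun n := (fun _ => n : P → N)
  map_add' _ _ := rfl
  map_smul' _ _ := rfl

/-- evaluation at `1` -/
def pr (N : Type u) [AddCommGroup N] [Module T N] : IndG D N →ₗ[T] N where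
  toFun v := v 1
  map_add' _ _ := rfl
  map_smul' _ _ := rfl

theorem pr_cst {N : Type u} [AddCommGroup N] [Module T N] (n : N) : pr D N (cst D N n) = n := rfl

theorem y_cst {N : Type u} [AddCommGroup N] [Module T N] (g : P) (n : N) :
    D.y g • cst D N n = cst D N n := by
  rw [y_smul_ind]
  rfl

theorem eq_cst {N : Type u} [AddCommGroup N] [Module T N] (v : IndG D N)
    (h : ∀ g, D.y g • v = v) : v = cst D N (pr D N v) := by
  funext x
  have := congrFun (h x) 1
  rw [y_smul_ind_apply, one_mul] at this
  exact this

theorem equiv_of_ind {N N' : Type u} [AddCommGroup N] [Module T N] [AddCommGroup N'] [Module T N']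
    (e : IndG D N ≃ₗ[S] IndG D N') : Nonempty (N ≃ₗ[T] N') := by
  have key : ∀ {N N' : Type u} [AddCommGroup N] [Module T N] [AddCommGroup N'] [Module T N']
      (e : IndG D N ≃ₗ[S] IndG D N') (n : N),
      pr D N (e.symm (cst D N' (pr D N' (e (cst D N n))))) = n := by
    intro N N' _ _ _ _ e n
    rw [← eq_cst D (e (cst D N n)), e.symm_apply_apply, pr_cst]
    intro g
    rw [← map_smul, y_cst]
  refine ⟨LinearEquiv.ofLinear ((pr D N').comp ((toT D e.toLinearMap).comp (cst D N)))
    ((pr D N).comp ((toT D e.symm.toLinearMap).comp (cst D N'))) ?_ ?_⟩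
  · apply LinearMap.ext
    intro n
    exact key e.symm n
  · apply LinearMap.ext
    intro n
    exact key e n

theorem ind_equiv {N N' : Type u} [AddCommGroup N] [Module T N] [AddCommGroup N'] [Module T N']
    (e : N ≃ₗ[T] N') : Nonempty (IndG D N ≃ₗ[S] IndG D N') := by
  classical
  refine ⟨LinearEquiv.ofLinear (indMap D e.toLinearMap) (indMap D e.symm.toLinearMap) ?_ ?_⟩
  · apply LinearMap.ext
    intro v
    funext p
    rw [LinearMap.comp_apply, indMap_apply, indMap_apply]
    exact e.apply_symm_apply _
  · apply LinearMap.ext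
    intro v
    funext p
    rw [LinearMap.comp_apply, indMap_apply, indMap_apply]
    exact e.symm_apply_apply _

/-- the submodule induced by a submodule -/
noncomputable def indSub {N : Type u} [AddCommGroup N] [Module T N] (U : Submodule T N) :
    Submodule S (IndG D N) :=
  toSub D (X := IndG D N)
    ({ carrier := {v | ∀ p, v p ∈ U}
       add_mem' := fun {v w} hv hw p => U.add_mem (hv p) (hw p)
       zero_mem' := fun p => U.zero_mem
       smul_mem' := fun t v hv p => U.smul_mem t (hv p) } : Submodule T (IndG D N)) (by
      intro g v hv x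
      rw [y_smul_ind]
      exact hv (x * g))

theorem mem_indSub {N : Type u} [AddCommGroup N] [Module T N] (U : Submodule T N) (v : IndG D N) :
    v ∈ indSub D U ↔ ∀ p, v p ∈ U := Iff.rfl

theorem indec_of_ind {N : Type u} [AddCommGroup N] [Module T N] (h : Indec S (IndG D N)) :
    Indec T N := by
  obtain ⟨hn, hd⟩ := h
  refine ⟨?_, ?_⟩
  · by_contra hN
    rw [not_nontrivial_iff_subsingleton] at hN
    obtain ⟨x, y, hxy⟩ := hn
    exact hxy (funext fun p => Subsingleton.elim _ _)
  · intro U V hUV
    have h1 : IsCompl (indSub D U) (indSub D V) := by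
      constructor
      · rw [Submodule.disjoint_def]
        intro v hu hv
        funext p
        exact (Submodule.disjoint_def.1 hUV.disjoint) _ (hu p) (hv p)
      · rw [codisjoint_iff, eq_top_iff]
        rintro v -
        have h2 : ∀ p, ∃ y ∈ U, ∃ z ∈ V, y + z = v p := by
          intro p
          have : v p ∈ U ⊔ V := by
            rw [hUV.sup_eq_top]
            trivial
          exact Submodule.mem_sup.1 this
        choose y hy z hz hyz using h2
        rw [Submodule.mem_sup]
        exact ⟨(y : IndG D N), hy, (z : IndG D N), hz, funext hyz⟩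
    have h3 : ∀ W : Submodule T N, indSub D W = ⊥ → W = ⊥ := by
      intro W hW
      rw [Submodule.eq_bot_iff]
      intro x hx
      have h5 : ∀ v : IndG D N, v ∈ indSub D W → v = 0 := fun v hv => by
        rw [hW] at hv
        exact (Submodule.mem_bot S).1 hv
      exact congrFun (h5 (fun _ => x) fun _ => hx) 1
    exact (hd _ _ h1).imp (h3 U) (h3 V)

theorem ind_of_indec {p : ℕ} [Fact p.Prime] (hP : IsPGroup p P) {N : Type u} [AddCommGroup N]
    [Module T N] (hp : ∀ n : N, p • n = 0) (h : Indec T N) :
    Indec S (IndG D N) := by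
  obtain ⟨hn, hd⟩ := h
  refine ⟨?_, ?_⟩
  · obtain ⟨x, y, hxy⟩ := hn
    refine ⟨cst D N x, cst D N y, fun e => hxy ?_⟩
    rw [← pr_cst D x, e, pr_cst]
  · intro U V hUV
    let im : Submodule S (IndG D N) → Submodule T N := fun W =>
      { carrier := {n | cst D N n ∈ W}
        add_mem' := by
          intro v w hv hw
          change cst D N (v + w) ∈ W
          rw [map_add]
          exact W.add_mem hv hw
        zero_mem' := by
          change cst D N 0 ∈ W
          rw [map_zero]
          exact W.zero_mem
        smul_mem' := by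
          intro t n hn
          change cst D N (t • n) ∈ W
          rw [map_smul, ← Cmp.smul (D := D)]
          exact W.smul_mem _ hn }
    have hdec : ∀ v : IndG D N, ∃ y ∈ U, ∃ z ∈ V, y + z = v := by
      intro v
      have : v ∈ U ⊔ V := by
        rw [hUV.sup_eq_top]
        trivial
      exact Submodule.mem_sup.1 this
    have hdis := Submodule.disjoint_def.1 hUV.disjoint
    have h1 : IsCompl (im U) (im V) := by
      constructor
      · rw [Submodule.disjoint_def]
        intro n hu hv
        have := hdis _ hu hv
        exact congrFun this 1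
      · rw [codisjoint_iff, eq_top_iff]
        rintro n -
        obtain ⟨y, hy, z, hz, hyz⟩ := hdec (cst D N n)
        have hfix : ∀ g, D.y g • y = y ∧ D.y g • z = z := by
          intro g
          have h3 : D.y g • y + D.y g • z = y + z := by
            rw [← smul_add, hyz, y_cst]
          have h4 : D.y g • y - y = z - D.y g • z := by
            rw [sub_eq_sub_iff_add_eq_add, h3, add_comm]
          have h5 : D.y g • y - y = 0 := hdis _ (U.sub_mem (U.smul_mem _ hy) hy) (by
            rw [h4]
            exact V.sub_mem hz (V.smul_mem _ hz))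
          have h6 := h5
          rw [h4] at h6
          exact ⟨sub_eq_zero.1 h5, (sub_eq_zero.1 h6).symm⟩
        rw [Submodule.mem_sup]
        refine ⟨pr D N y, ?_, pr D N z, ?_, ?_⟩
        · change cst D N (pr D N y) ∈ U
          rw [← eq_cst D y fun g => (hfix g).1]
          exact hy
        · change cst D N (pr D N z) ∈ V
          rw [← eq_cst D z fun g => (hfix g).2]
          exact hz
        · rw [← map_add, hyz, pr_cst]
    have h4 : ∀ W : Submodule S (IndG D N), im W = ⊥ → W = ⊥ := by
      intro W hW
      rw [Submodule.eq_bot_iff]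
      intro w hw
      by_contra hw0
      obtain ⟨v, hv, hv0, hvf⟩ := exists_fixed hP (V := IndG D N) (fun v => funext fun g => hp (v g))
        (act D (IndG D N)) W.toAddSubgroup (fun g u hu => W.smul_mem _ hu) w hw hw0
      apply hv0
      have h5 := eq_cst D v hvf
      have h6 : pr D N v ∈ im W := by
        change cst D N (pr D N v) ∈ W
        rw [← h5]
        exact hv
      rw [hW, Submodule.mem_bot] at h6
      rw [h5, h6, map_zero]
    exact (hd _ _ h1).imp (h4 U) (h4 V)

theorem ind_finite {N : Type u} [AddCommGroup N] [Module T N] (h : Module.Finite T N) :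
    Module.Finite S (IndG D N) := by
  obtain ⟨s, hs⟩ := h.fg_top
  classical
  refine ⟨⟨s.image (iota D N), ?_⟩⟩
  rw [eq_top_iff]
  rintro v -
  rw [ind_eq_sum D N v]
  apply Submodule.sum_mem
  intro p _
  apply Submodule.smul_mem
  have hn : v p ∈ Submodule.span T (s : Set N) := by
    rw [hs]
    trivial
  refine Submodule.span_induction (p := fun n _ => iota D N n ∈ _) ?_ ?_ ?_ ?_ hn
  · intro n hn
    apply Submodule.subset_span
    simp only [Finset.coe_image, Set.mem_image]
    exact ⟨n, hn, rfl⟩
  · rw [map_zero]
    exact Submodule.zero_mem _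
  · intro x y _ _ hx hy
    rw [map_add]
    exact Submodule.add_mem _ hx hy
  · intro t x _ hx
    rw [map_smul, ← Cmp.smul (D := D)]
    exact Submodule.smul_mem _ _ hx

/-- the augmentation, on functions -/
def augPre (T : Type u) [Ring T] (P : Type) [Fintype P] (N : Type u) [AddCommGroup N] [Module T N] :
    (P → N) →ₗ[T] N where
  toFun v := ∑ g : P, v g
  map_add' v w := by
    simp only [Pi.add_apply, Finset.sum_add_distrib]
  map_smul' t v := by
    simp only [Pi.smul_apply, RingHom.id_apply, Finset.smul_sum]

/-- the augmentation -/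
def aug (N : Type u) [AddCommGroup N] [Module T N] : IndG D N →ₗ[T] N := augPre T P N

theorem aug_y {N : Type u} [AddCommGroup N] [Module T N] (g : P) (v : IndG D N) :
    aug D N (D.y g • v) = aug D N v := by
  change ∑ x : P, (D.y g • v : IndG D N) x = ∑ x : P, v x
  simp only [y_smul_ind_apply]
  exact Fintype.sum_equiv (Equiv.mulRight g) _ _ (fun x => rfl)

theorem aug_smul {N : Type u} [AddCommGroup N] [Module T N] (s : S) :
    ∃ t : T, ∀ v : IndG D N, aug D N (s • v) = t • aug D N v := by
  obtain ⟨t, ht⟩ := smul_eq_sum D (X := IndG D N) s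
  refine ⟨∑ g, t g, fun v => ?_⟩
  rw [ht, map_sum, Finset.sum_smul]
  apply Finset.sum_congr rfl
  intro g _
  rw [map_smul, aug_y]

theorem finite_of_ind {N : Type u} [AddCommGroup N] [Module T N]
    (h : Module.Finite S (IndG D N)) : Module.Finite T N := by
  obtain ⟨s, hs⟩ := h.fg_top
  classical
  refine ⟨⟨s.image (aug D N), ?_⟩⟩
  rw [eq_top_iff]
  rintro n -
  have hv : iota D N n ∈ Submodule.span S (s : Set (IndG D N)) := by
    rw [hs]
    trivial
  have : aug D N (iota D N n) ∈ Submodule.span T ((s.image (aug D N) : Finset N) : Set N) := by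
    refine Submodule.span_induction (p := fun v _ => aug D N v ∈ _) ?_ ?_ ?_ ?_ hv
    · intro v hv
      apply Submodule.subset_span
      simp only [Finset.coe_image, Set.mem_image]
      exact ⟨v, hv, rfl⟩
    · rw [map_zero]
      exact Submodule.zero_mem _
    · intro x y _ _ hx hy
      rw [map_add]
      exact Submodule.add_mem _ hx hy
    · intro c x _ hx
      obtain ⟨t, ht⟩ := aug_smul D (N := N) c
      rw [ht]
      exact Submodule.smul_mem _ _ hx
  have e : aug D N (iota D N n) = n := by
    change ∑ g : P, (Pi.single 1 n : P → N) g = n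
    rw [Finset.sum_pi_single', if_pos (Finset.mem_univ _)]
  rwa [e] at this

/-- Ext between induced modules -/
theorem ext_ind_ind [DecidableEq P] (N N' : Type u) [AddCommGroup N] [Module T N]
    [AddCommGroup N'] [Module T N'] (i : ℕ) :
    Subsingleton (Ext (ModuleCat.of S (IndG D N)) (ModuleCat.of S (IndG D N')) (i + 1)) ↔
      Subsingleton (Ext (ModuleCat.of T N) (ModuleCat.of T N') (i + 1)) := by
  refine (ext_ind D i N (IndG D N')).trans ?_
  have e0 : IndG D N' ≃ₗ[T] (Fin (Fintype.card P) → N') :=
    LinearEquiv.funCongrLeft T N' (Fintype.equivFin P).symm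
  refine Iff.trans ?_ (ext_pi_right (X := ModuleCat.of T N) (N := N') (Fintype.card P)
    Fintype.card_pos (i + 1))
  constructor
  · intro h
    exact ext_iso_right (Y := ModuleCat.of T (IndG D N'))
      (Y' := ModuleCat.of T (Fin (Fintype.card P) → N')) (LinearEquiv.toModuleIso e0) _ h
  · intro h
    exact ext_iso_right (Y' := ModuleCat.of T (IndG D N'))
      (Y := ModuleCat.of T (Fin (Fintype.card P) → N')) (LinearEquiv.toModuleIso e0).symm _ h

end Pool.Agent.Q112.RigG
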