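import Pool.Agent.Q112.Rig.Fam2
import Pool.Agent.Q112.RigG.Fixed

/-!
# Rings which behave as the group ring `T[P]`
-/

set_option autoImplicit false

namespace Pool.Agent.Q112.RigG

open CategoryTheory Abelian Pool.Agent.Q112.Rig

universe u

/-- `S` behaves as `T[P]` -/
structure GExt (T S : Type u) [Ring T] [Ring S] (P : Type) [Group P] [Fintype P] where
  f : T →+* S
  y : P →* S
  comm : ∀ g t, y g * f t = f t * y g
  gen : ∀ s : S, ∃ t : P → T, s = ∑ g, f (t g) * y g
  ext : ∀ (N : Type u) [AddCommGroup N] [Module T N] (Y : P →* Module.End T N),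
    ∃ ρ : S →+* AddMonoid.End N, (∀ t v, ρ (f t) v = t • v) ∧ ∀ g v, ρ (y g) v = Y g v

variable {T S : Type u} [Ring T] [Ring S] {P : Type} [Group P] [Fintype P]

/-- the two module structures are compatible -/
class Cmp (D : GExt T S P) (X : Type u) [AddCommGroup X] [Module T X] [Module S X] : Prop where
  smul : ∀ (t : T) (v : X), D.f t • v = t • v

section cmp

variable (D : GExt T S P) {X X' : Type u} [AddCommGroup X] [Module T X] [Module S X]
  [AddCommGroup X'] [Module T X'] [Module S X'] [Cmp D X] [Cmp D X']

theorem y_smul_comm (g : P) (t : T) (v : X) : D.y g • t • v = t • D.y g • v := by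
  rw [← Cmp.smul (D := D) t v, ← Cmp.smul (D := D) t (D.y g • v), ← mul_smul, ← mul_smul, D.comm]

theorem y_mul (g h : P) (v : X) : D.y (g * h) • v = D.y g • D.y h • v := by
  rw [map_mul, mul_smul]

theorem y_one (v : X) : D.y 1 • v = v := by
  rw [map_one, one_smul]

theorem smul_eq_sum (s : S) : ∃ t : P → T, ∀ v : X, s • v = ∑ g, t g • D.y g • v := by
  obtain ⟨t, ht⟩ := D.gen s
  refine ⟨t, fun v => ?_⟩
  rw [ht, Finset.sum_smul]
  apply Finset.sum_congr rfl
  intro g _
  rw [mul_smul, Cmp.smul]

/-- a `T`-linear map commuting with `P` is `S`-linear -/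
def toLin (φ : X →ₗ[T] X') (h : ∀ g v, φ (D.y g • v) = D.y g • φ v) : X →ₗ[S] X' where
  toFun := φ
  map_add' := φ.map_add
  map_smul' s v := by
    obtain ⟨t, ht⟩ := D.gen s
    rw [RingHom.id_apply, ht, Finset.sum_smul, map_sum, Finset.sum_smul]
    apply Finset.sum_congr rfl
    intro g _
    rw [mul_smul, Cmp.smul, map_smul, h, mul_smul, Cmp.smul]

/-- an `S`-linear map is `T`-linear -/
def toT (φ : X →ₗ[S] X') : X →ₗ[T] X' where
  toFun := φ
  map_add' := φ.map_add
  map_smul' t v := by
    rw [← Cmp.smul (D := D) t v, map_smul, Cmp.smul, RingHom.id_apply]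

/-- a `T`-submodule stable under `P` is an `S`-submodule -/
def toSub (U : Submodule T X) (h : ∀ g, ∀ v ∈ U, D.y g • v ∈ U) : Submodule S X where
  carrier := U
  add_mem' := U.add_mem
  zero_mem' := U.zero_mem
  smul_mem' s v hv := by
    obtain ⟨t, ht⟩ := smul_eq_sum D (X := X) s
    rw [ht]
    exact U.sum_mem fun g _ => U.smul_mem _ (h g v hv)

/-- the action of `P` by additive maps -/
def act (X : Type u) [AddCommGroup X] [Module S X] : P →* AddMonoid.End X :=
  ((Module.toAddMonoidEnd S X) : S →* AddMonoid.End X).comp D.y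

theorem act_apply (g : P) (v : X) : act D X g v = D.y g • v := rfl

end cmp

/-- the action on functions -/
def tr (T : Type u) [Ring T] (P : Type) [Group P] (N : Type u) [AddCommGroup N] [Module T N] :
    P →* Module.End T (P → N) where
  toFun g := { toFun := fun φ x => φ (x * g)
               map_add' := fun _ _ => rfl
               map_smul' := fun _ _ => rfl }
  map_one' := by
    apply LinearMap.ext
    intro φ
    funext x
    change φ (x * 1) = φ x
    rw [mul_one]
  map_mul' g h := by
    apply LinearMap.ext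
    intro φ
    funext x
    change φ (x * (g * h)) = φ (x * g * h)
    rw [mul_assoc]

theorem tr_apply (N : Type u) [AddCommGroup N] [Module T N] (g x : P) (φ : P → N) :
    tr T P N g φ x = φ (x * g) := rfl

/-- the induced module -/
def IndG (_ : GExt T S P) (N : Type u) : Type u := P → N

section ind

variable (D : GExt T S P) (N : Type u) [AddCommGroup N] [Module T N]

instance : AddCommGroup (IndG D N) := inferInstanceAs (AddCommGroup (P → N))
instance : Module T (IndG D N) := inferInstanceAs (Module T (P → N))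
noncomputable instance : Module S (IndG D N) :=
  Module.compHom (P → N) (D.ext (P → N) (tr T P N)).choose

instance : Cmp D (IndG D N) := ⟨(D.ext (P → N) (tr T P N)).choose_spec.1⟩

theorem y_smul_ind (g : P) (v : IndG D N) : D.y g • v = tr T P N g v :=
  (D.ext (P → N) (tr T P N)).choose_spec.2 g v

theorem y_smul_ind_apply (g x : P) (v : IndG D N) : (D.y g • v : IndG D N) x = v (x * g) := by
  rw [y_smul_ind]
  rfl

variable [DecidableEq P]

/-- the embedding at `1` -/
def iota : N →ₗ[T] IndG D N := LinearMap.single T (fun _ : P => N) 1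

theorem iota_apply (n : N) : iota D N n = (Pi.single 1 n : P → N) := rfl

theorem y_iota (g : P) (n : N) : D.y g • iota D N n = (Pi.single g⁻¹ n : P → N) := by
  funext x
  refine (y_smul_ind_apply D N g x _).trans ?_
  rw [iota_apply]
  by_cases h : x = g⁻¹
  · subst h
    rw [inv_mul_cancel, Pi.single_eq_same, Pi.single_eq_same]
  · rw [Pi.single_eq_of_ne h, Pi.single_eq_of_ne]
    intro e
    exact h (mul_eq_one_iff_eq_inv.1 e)

theorem ind_eq_sum (v : IndG D N) : v = ∑ g : P, D.y g⁻¹ • iota D N (v g) := by
  simp only [y_iota, inv_inv]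
  exact (Finset.univ_sum_single (M := fun _ : P => N) v).symm

variable {N}
variable {X : Type u} [AddCommGroup X] [Module T X] [Module S X] [Cmp D X]

/-- the universal property, on functions -/
def indPre (φ : N →ₗ[T] X) : (P → N) →ₗ[T] X where
  toFun v := ∑ g : P, D.y g⁻¹ • φ (v g)
  map_add' v w := by
    rw [← Finset.sum_add_distrib]
    apply Finset.sum_congr rfl
    intro g _
    rw [← smul_add, ← map_add]
    rfl
  map_smul' t v := by
    rw [RingHom.id_apply, Finset.smul_sum]
    apply Finset.sum_congr rfl
    intro g _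
    rw [← y_smul_comm, ← φ.map_smul]
    rfl

theorem indPre_tr (φ : N →ₗ[T] X) (h : P) (v : P → N) :
    indPre D φ (tr T P N h v) = D.y h • indPre D φ v := by
  change ∑ g : P, D.y g⁻¹ • φ (v (g * h)) = D.y h • ∑ g : P, D.y g⁻¹ • φ (v g)
  rw [Finset.smul_sum]
  apply Fintype.sum_equiv (Equiv.mulRight h)
  intro g
  rw [Equiv.coe_mulRight, ← y_mul, mul_inv_rev, mul_inv_cancel_left]

/-- the universal property -/
noncomputable def indHom (φ : N →ₗ[T] X) : IndG D N →ₗ[S] X :=
  toLin D (X := IndG D N) (X' := X) (indPre D φ) (fun g v => by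
    rw [y_smul_ind]
    exact indPre_tr D φ g v)

theorem indHom_apply (φ : N →ₗ[T] X) (v : IndG D N) :
    indHom D φ v = ∑ g : P, D.y g⁻¹ • φ (v g) := rfl

theorem indHom_iota (φ : N →ₗ[T] X) (n : N) : indHom D φ (iota D N n) = φ n := by
  rw [indHom_apply, Finset.sum_eq_single 1]
  · change D.y 1⁻¹ • φ ((Pi.single 1 n : P → N) 1) = φ n
    rw [Pi.single_eq_same, inv_one, y_one]
  · intro g _ hg
    change D.y _ • φ ((Pi.single 1 n : P → N) g) = 0
    rw [Pi.single_eq_of_ne hg, map_zero, smul_zero]
  · intro h
    exact absurd (Finset.mem_univ _) h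

theorem ind_hom_ext {X : Type u} [AddCommGroup X] [Module S X] {F G : IndG D N →ₗ[S] X}
    (h : ∀ n, F (iota D N n) = G (iota D N n)) : F = G := by
  apply LinearMap.ext
  intro v
  rw [ind_eq_sum D N v, map_sum, map_sum]
  apply Finset.sum_congr rfl
  intro g _
  rw [map_smul, map_smul, h]

/-- functoriality -/
noncomputable def indMap {N' : Type u} [AddCommGroup N'] [Module T N'] (φ : N →ₗ[T] N') :
    IndG D N →ₗ[S] IndG D N' :=
  indHom D ((iota D N').comp φ)

theorem indMap_iota {N' : Type u} [AddCommGroup N'] [Module T N'] (φ : N →ₗ[T] N') (n : N) :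
    indMap D φ (iota D N n) = iota D N' (φ n) := indHom_iota D _ n

theorem indMap_apply {N' : Type u} [AddCommGroup N'] [Module T N'] (φ : N →ₗ[T] N') (v : IndG D N)
    (g : P) : indMap D φ v g = φ (v g) := by
  have e : indMap D φ v = ∑ g : P, D.y g⁻¹ • iota D N' (φ (v g)) :=
    indHom_apply D _ v
  have e2 : (fun q => φ (v q) : IndG D N') = ∑ g : P, D.y g⁻¹ •
    iota D N' (φ (v g)) := ind_eq_sum D N' (fun q => φ (v q) : IndG D N')
  rw [e, ← e2]

variable (N)

/-- induced modules of projectives are projective -/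
theorem ind_projective [Module.Projective T N] : Module.Projective S (IndG D N) := by
  apply Module.Projective.of_lifting_property''
  intro f hf
  let _ : Module T (IndG D N →₀ S) := Module.compHom _ D.f
  have _ : Cmp D (IndG D N →₀ S) := ⟨fun _ _ => rfl⟩
  obtain ⟨h, hh⟩ := Module.projective_lifting_property (toT D f) (iota D N) hf
  refine ⟨indHom D h, ?_⟩
  apply ind_hom_ext
  intro n
  rw [LinearMap.comp_apply, indHom_iota]
  exact LinearMap.congr_fun hh n

end ind

section shift

variable [DecidableEq P]

/-- the induced complex -/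
noncomputable def indC (D : GExt T S P) {Q N : Type u} [AddCommGroup Q] [Module T Q]
    [AddCommGroup N] [Module T N] (π : Q →ₗ[T] N) : ShortComplex (ModuleCat.{u} S) :=
  ShortComplex.mk (ModuleCat.ofHom (indMap D (LinearMap.ker π).subtype))
    (ModuleCat.ofHom (indMap D π)) (by
    ext v
    funext g
    change indMap D π (indMap D (LinearMap.ker π).subtype v) g = 0
    rw [indMap_apply, indMap_apply]
    exact (v g).2)

theorem indC_exact (D : GExt T S P) {Q N : Type u} [AddCommGroup Q] [Module T Q]
    [AddCommGroup N] [Module T N] (π : Q →ₗ[T] N) (hπ : Function.Surjective π) :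
    (indC D π).ShortExact where
  exact := by
    rw [ShortComplex.moduleCat_exact_iff]
    intro x hx
    have hx' : ∀ g, π (x g) = 0 := by
      intro g
      rw [← indMap_apply D π x g]
      exact congrFun hx g
    refine ⟨(fun g => ⟨x g, hx' g⟩ : IndG D (LinearMap.ker π)), ?_⟩
    funext g
    exact indMap_apply D _ _ g
  mono_f := by
    rw [ModuleCat.mono_iff_injective]
    intro v w hvw
    funext g
    apply Subtype.ext
    have := congrFun hvw g
    exact ((indMap_apply D (LinearMap.ker π).subtype v g).symm.trans this).trans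
      (indMap_apply D (LinearMap.ker π).subtype w g)
  epi_g := by
    rw [ModuleCat.epi_iff_surjective]
    intro w
    choose v hv using fun g => hπ (w g)
    refine ⟨(v : IndG D Q), ?_⟩
    funext g
    exact (indMap_apply D π (v : IndG D Q) g).trans (hv g)

theorem extend_iff (D : GExt T S P) {Q N X : Type u} [AddCommGroup Q] [Module T Q]
    [AddCommGroup N] [Module T N] [AddCommGroup X] [Module T X] [Module S X] [Cmp D X]
    (j : N →ₗ[T] Q) :
    (∀ F : IndG D N →ₗ[S] X, ∃ G : IndG D Q →ₗ[S] X, G.comp (indMap D j) = F) ↔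
      ∀ f : N →ₗ[T] X, ∃ g : Q →ₗ[T] X, g.comp j = f := by
  constructor
  · intro h f
    obtain ⟨G, hG⟩ := h (indHom D f)
    refine ⟨(toT D G).comp (iota D Q), ?_⟩
    apply LinearMap.ext
    intro n
    change G (iota D Q (j n)) = f n
    rw [← indMap_iota, ← indHom_iota D f n, ← hG]
    rfl
  · intro h F
    obtain ⟨g, hg⟩ := h ((toT D F).comp (iota D N))
    refine ⟨indHom D g, ?_⟩
    apply ind_hom_ext
    intro n
    rw [LinearMap.comp_apply, indMap_iota, indHom_iota]
    exact LinearMap.congr_fun hg n

theorem ext_ind (D : GExt T S P) (i : ℕ) : ∀ (N X : Type u) [AddCommGroup N] [Module T N]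
    [AddCommGroup X] [Module T X] [Module S X] [Cmp D X],
    Subsingleton (Ext (ModuleCat.of S (IndG D N)) (ModuleCat.of S X) (i + 1)) ↔
      Subsingleton (Ext (ModuleCat.of T N) (ModuleCat.of T X) (i + 1)) := by
  induction i with
  | zero =>
    intro N X _ _ _ _ _ _
    let π : (N →₀ T) →ₗ[T] N := Finsupp.linearCombination T id
    have hπ : Function.Surjective π := Finsupp.linearCombination_id_surjective T N
    have _ : Projective (presC π).X₂ :=
      (IsProjective.iff_projective (R := T) (N →₀ T)).1 inferInstance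
    have _ : Projective (indC D π).X₂ :=
      (IsProjective.iff_projective (R := S) (IndG D (N →₀ T))).1 (ind_projective D _)
    have e1 := ext_one_iff (presC_exact π hπ) (ModuleCat.of T X)
    have e2 := ext_one_iff (indC_exact D π hπ) (ModuleCat.of S X)
    refine e2.trans (Iff.trans ?_ e1.symm)
    have e3 := extend_iff D (Q := N →₀ T) (N := LinearMap.ker π) (X := X) (LinearMap.ker π).subtype
    constructor
    · intro h f
      obtain ⟨g, hg⟩ := e3.1 (fun F => by
        obtain ⟨G, hG⟩ := h (ModuleCat.ofHom F)
        exact ⟨G.hom, congrArg ModuleCat.Hom.hom hG⟩) f.hom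
      refine ⟨ModuleCat.ofHom g, ?_⟩
      ext x
      exact LinearMap.congr_fun hg x
    · intro h f
      obtain ⟨g, hg⟩ := e3.2 (fun F => by
        obtain ⟨G, hG⟩ := h (ModuleCat.ofHom F)
        exact ⟨G.hom, congrArg ModuleCat.Hom.hom hG⟩) f.hom
      refine ⟨ModuleCat.ofHom g, ?_⟩
      ext x
      exact LinearMap.congr_fun hg x
  | succ i ih =>
    intro N X _ _ _ _ _ _
    let π : (N →₀ T) →ₗ[T] N := Finsupp.linearCombination T id
    have hπ : Function.Surjective π := Finsupp.linearCombination_id_surjective T N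
    have _ : Projective (presC π).X₂ :=
      (IsProjective.iff_projective (R := T) (N →₀ T)).1 inferInstance
    have _ : Projective (indC D π).X₂ :=
      (IsProjective.iff_projective (R := S) (IndG D (N →₀ T))).1 (ind_projective D _)
    have e1 := ext_succ_iff (presC_exact π hπ) (ModuleCat.of T X) i
    have e2 := ext_succ_iff (indC_exact D π hπ) (ModuleCat.of S X) i
    exact (e2.trans (ih (LinearMap.ker π) X)).trans e1.symm

end shift

end Pool.Agent.Q112.RigG
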