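import Pool.Agent.Q112.RigG.Ind
import Pool.Agent.Q112.QCI.Final

/-!
# Modules without self-extensions are induced
-/

set_option autoImplicit false

namespace Pool.Agent.Q112.RigG

open CategoryTheory Abelian Pool.Agent.Q112.Rig Pool.Agent.Q112.QCI

universe u

variable {T S : Type u} [Ring T] [Ring S] {P : Type} [Group P] [Fintype P] (D : GExt T S P)

/-- the action of `P` by `T`-linear maps -/
def yop (M : Type u) [AddCommGroup M] [Module T M] [Module S M] [Cmp D M] :
    P →* Module.End T M where
  toFun g := { toFun := fun v => D.y g • v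
               map_add' := fun v w => smul_add _ _ _
               map_smul' := fun t v => y_smul_comm D g t v }
  map_one' := by
    apply LinearMap.ext
    intro v
    exact y_one D v
  map_mul' g h := by
    apply LinearMap.ext
    intro v
    exact y_mul D g h v

theorem yop_apply {M : Type u} [AddCommGroup M] [Module T M] [Module S M] [Cmp D M] (g : P)
    (v : M) : yop D M g v = D.y g • v := rfl

/-- conjugation on endomorphisms -/
def conj (M : Type u) [AddCommGroup M] [Module T M] [Module S M] [Cmp D M] :
    P →* AddMonoid.End (Module.End T M) where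
  toFun g := { toFun := fun φ => yop D M g * φ * yop D M g⁻¹
               map_zero' := by rw [mul_zero, zero_mul]
               map_add' := fun φ ψ => by rw [mul_add, add_mul] }
  map_one' := by
    apply AddMonoidHom.ext
    intro φ
    change yop D M 1 * φ * yop D M 1⁻¹ = φ
    rw [inv_one, map_one, one_mul, mul_one]
  map_mul' g h := by
    apply AddMonoidHom.ext
    intro φ
    change yop D M (g * h) * φ * yop D M (g * h)⁻¹ =
      yop D M g * (yop D M h * φ * yop D M h⁻¹) * yop D M g⁻¹
    rw [mul_inv_rev, map_mul, map_mul]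
    noncomm_ring

theorem conj_apply {M : Type u} [AddCommGroup M] [Module T M] [Module S M] [Cmp D M] (g : P)
    (φ : Module.End T M) : conj D M g φ = yop D M g * φ * yop D M g⁻¹ := rfl

theorem yop_inv_mul {M : Type u} [AddCommGroup M] [Module T M] [Module S M] [Cmp D M] (g : P) :
    yop D M g⁻¹ * yop D M g = 1 := by
  rw [← map_mul, inv_mul_cancel, map_one]

theorem yop_mul_inv {M : Type u} [AddCommGroup M] [Module T M] [Module S M] [Cmp D M] (g : P) :
    yop D M g * yop D M g⁻¹ = 1 := by
  rw [← map_mul, mul_inv_cancel, map_one]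

/-- the deformed action -/
def dp {M : Type u} [AddCommGroup M] [Module T M] [Module S M] [Cmp D M]
    (c : P → Module.End T M) (hc : ∀ g h, c (g * h) = c g + conj D M g (c h)) :
    P →* Module.End T (Db M) where
  toFun g := { toFun := fun v => ((yop D M g v.1 + (c g * yop D M g) v.2, yop D M g v.2) : M × M)
               map_add' := fun v w => by
                change ((yop D M g (v.1 + w.1) + (c g * yop D M g) (v.2 + w.2),
                  yop D M g (v.2 + w.2)) : M × M) =
                  ((yop D M g v.1 + (c g * yop D M g) v.2 + (yop D M g w.1 +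
                    (c g * yop D M g) w.2), yop D M g v.2 + yop D M g w.2) : M × M)
                rw [map_add, map_add, map_add]
                congr 1
                abel
               map_smul' := fun t v => by
                change ((yop D M g (t • v.1) + (c g * yop D M g) (t • v.2),
                  yop D M g (t • v.2)) : M × M) =
                  ((t • (yop D M g v.1 + (c g * yop D M g) v.2), t • yop D M g v.2) : M × M)
                rw [map_smul, map_smul, map_smul, smul_add] }
  map_one' := by
    apply LinearMap.ext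
    intro v
    have c1 : c 1 = 0 := by
      have := hc 1 1
      rw [mul_one, conj_apply, inv_one, map_one, one_mul, mul_one] at this
      simpa using this
    change ((yop D M 1 v.1 + (c 1 * yop D M 1) v.2, yop D M 1 v.2) : M × M) = v
    rw [c1, zero_mul, map_one]
    exact Prod.ext (add_zero _) rfl
  map_mul' g h := by
    apply LinearMap.ext
    intro v
    change ((yop D M (g * h) v.1 + (c (g * h) * yop D M (g * h)) v.2, yop D M (g * h) v.2) : M × M) =
      ((yop D M g (yop D M h v.1 + (c h * yop D M h) v.2) + (c g * yop D M g) (yop D M h v.2),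
        yop D M g (yop D M h v.2)) : M × M)
    have e : c (g * h) * yop D M (g * h) = yop D M g * (c h * yop D M h) +
        c g * yop D M g * yop D M h := by
      rw [hc, conj_apply, map_mul, add_mul]
      have : yop D M g * c h * yop D M g⁻¹ * (yop D M g * yop D M h) =
          yop D M g * (c h * yop D M h) := by
        calc yop D M g * c h * yop D M g⁻¹ * (yop D M g * yop D M h)
            = yop D M g * c h * (yop D M g⁻¹ * yop D M g) * yop D M h := by noncomm_ring
          _ = _ := by rw [yop_inv_mul]; noncomm_ring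
      rw [this]
      noncomm_ring
    rw [e, map_mul]
    simp only [Module.End.mul_apply, LinearMap.add_apply, map_add]
    congr 1
    abel

/-- deformations of the action of `P` are trivial -/
theorem def_trivial {M : Type u} [AddCommGroup M] [Module T M] [Module S M] [Cmp D M]
    (hE : Subsingleton (Ext (ModuleCat.of S M) (ModuleCat.of S M) 1)) (c : P → Module.End T M)
    (hc : ∀ g h, c (g * h) = c g + conj D M g (c h)) :
    ∃ h : Module.End T M, ∀ g, c g = conj D M g h - h := by
  obtain ⟨ρ, hρ1, hρ2⟩ := D.ext (Db M) (dp D c hc)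
  let _ : Module S (Db M) := Module.compHom (Db M) ρ
  have _ : Cmp D (Db M) := ⟨hρ1⟩
  have hx : ∀ g (v : Db M), D.y g • v = dp D c hc g v := hρ2
  let f : M →ₗ[S] Db M := toLin D
    ({ toFun := fun m => ((m, 0) : M × M)
       map_add' := fun x y => by
        change ((x + y, 0) : M × M) = ((x + y, 0 + 0) : M × M)
        rw [add_zero]
       map_smul' := fun k x => by
        change ((k • x, 0) : M × M) = ((k • x, k • 0) : M × M)
        rw [smul_zero] } : M →ₗ[T] Db M) (by
      intro g m
      rw [hx]
      change ((D.y g • m, 0) : M × M) =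
        ((D.y g • m + (c g * yop D M g) 0, D.y g • (0 : M)) : M × M)
      rw [map_zero, add_zero, smul_zero])
  let g : Db M →ₗ[S] M := toLin D
    ({ toFun := fun v => v.2
       map_add' := fun x y => rfl
       map_smul' := fun k x => rfl } : Db M →ₗ[T] M) (by
      intro g v
      rw [hx]
      rfl)
  have hf' : ∀ m, f m = ((m, 0) : M × M) := fun _ => rfl
  have hg' : ∀ v : Db M, g v = v.2 := fun _ => rfl
  obtain ⟨t, ht⟩ := split_of_ext f g (by
    intro x y hxy
    rw [hf', hf'] at hxy
    exact congrArg Prod.fst hxy) (by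
    intro m
    exact ⟨((0, m) : M × M), hg' _⟩) (by
    intro v
    constructor
    · intro hv
      rw [hg'] at hv
      refine ⟨v.1, ?_⟩
      rw [hf']
      exact Prod.ext rfl hv.symm
    · rintro ⟨m, rfl⟩
      rw [hg', hf']) hE
  let t' := toT D t
  let h : Module.End T M :=
    { toFun := fun m => -(t' m).1
      map_add' := fun x y => by
        rw [map_add]
        change -((t' x).1 + (t' y).1) = _
        abel
      map_smul' := fun k x => by
        rw [map_smul]
        change -(k • (t' x).1) = k • -(t' x).1
        rw [smul_neg] }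
  have hh : ∀ m, h m = -(t m).1 := fun _ => rfl
  refine ⟨h, fun g0 => ?_⟩
  -- `c g * y g = y g * h - h * y g`
  have key : c g0 * yop D M g0 = yop D M g0 * h - h * yop D M g0 := by
    apply LinearMap.ext
    intro m
    have e2 : (t m).2 = m := by
      have := LinearMap.congr_fun ht m
      rw [LinearMap.comp_apply, hg'] at this
      exact this
    have e1 : t (D.y g0 • m) = dp D c hc g0 (t m) := by
      rw [map_smul, hx]
    have e3 : (t (D.y g0 • m)).1 = D.y g0 • (t m).1 + (c g0 * yop D M g0) (t m).2 := by
      rw [e1]; rfl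
    rw [e2] at e3
    change (c g0 * yop D M g0) m = D.y g0 • h m - h (D.y g0 • m)
    rw [hh, hh, e3, smul_neg]
    abel
  rw [conj_apply]
  calc c g0 = c g0 * yop D M g0 * yop D M g0⁻¹ := by
        rw [mul_assoc, yop_mul_inv, mul_one]
    _ = yop D M g0 * h * yop D M g0⁻¹ - h * (yop D M g0 * yop D M g0⁻¹) := by
        rw [key, sub_mul]
        noncomm_ring
    _ = _ := by rw [yop_mul_inv, mul_one]

theorem exists_retraction {p : ℕ} [Fact p.Prime] {V : Type u} [AddCommGroup V]
    (hp : ∀ v : V, p • v = 0) (a : P →* AddMonoid.End V) :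
    ∃ τ : V →+ V, (∀ v g, a g (τ v) = τ v) ∧ ∀ w, (∀ g, a g w = w) → τ w = w := by
  have aux : ∀ (_ : Module (ZMod p) V), ∃ τ : V →+ V, (∀ v g, a g (τ v) = τ v) ∧
      ∀ w, (∀ g, a g w = w) → τ w = w := by
    intro _
    let U : Submodule (ZMod p) V :=
      { inv a with
        smul_mem' := by
          intro c x hx
          obtain ⟨n, rfl⟩ := ZMod.natCast_zmod_surjective c
          rw [Nat.cast_smul_eq_nsmul]
          exact (inv a).nsmul_mem hx n }
    obtain ⟨τ, hτ⟩ := U.subtype.exists_leftInverse_of_injective (Submodule.ker_subtype _)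
    refine ⟨(U.subtype.comp τ).toAddMonoidHom, ?_, ?_⟩
    · intro v g
      exact (τ v).2 g
    · intro w hw
      have := LinearMap.congr_fun hτ (⟨w, hw⟩ : U)
      exact congrArg Subtype.val this
  exact aux (AddCommGroup.zmodModule hp)

/-- the trace identity -/
theorem exists_trace {p : ℕ} [Fact p.Prime] (hP : IsPGroup p P) {M : Type u} [AddCommGroup M]
    (hp : ∀ m : M, p • m = 0) [Module T M] [Module S M] [Cmp D M]
    (hE : Subsingleton (Ext (ModuleCat.of S M) (ModuleCat.of S M) 1)) :
    ∃ e : Module.End T M, ∑ g, conj D M g e = 1 := by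
  classical
  have hpV : ∀ φ : Module.End T M, p • φ = 0 := by
    intro φ
    apply LinearMap.ext
    intro m
    exact hp _
  obtain ⟨τ, hτ1, hτ2⟩ := exists_retraction hpV (conj D M)
  obtain ⟨_, h2⟩ := lemmaE hP hpV (conj D M) τ hτ1 hτ2 (fun c hc => def_trivial D hE c hc)
  obtain ⟨e, he⟩ := h2 (fun g => if g = 1 then 1 else 0) (by
    intro g h
    split_ifs
    · rw [conj_apply, mul_one, yop_mul_inv]
    · rw [map_zero])
  refine ⟨e, ?_⟩
  have h3 : ∀ h, conj D M h (∑ g, conj D M g e) = ∑ g, conj D M g e := by
    intro h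
    rw [map_sum]
    apply Fintype.sum_equiv (Equiv.mulLeft h)
    intro g
    rw [Equiv.coe_mulLeft, map_mul]
    rfl
  rw [← hτ2 _ h3, map_sum]
  simp only [he]
  rw [Finset.sum_ite_eq' Finset.univ (1 : P), if_pos (Finset.mem_univ _)]

/-- **modules without self-extensions are induced** -/
theorem exists_ind {p : ℕ} [Fact p.Prime] (hP : IsPGroup p P) {M : Type u} [AddCommGroup M]
    (hp : ∀ m : M, p • m = 0) [Module T M] [Module S M] [Cmp D M]
    (hE : Subsingleton (Ext (ModuleCat.of S M) (ModuleCat.of S M) 1)) :
    ∃ (N : ModuleCat.{u} T), Nonempty (IndG D N ≃ₗ[S] M) := by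
  classical
  obtain ⟨e, he⟩ := exists_trace D hP hp hE
  let N : Submodule T M :=
    { carrier := {m | ∀ g, D.y g • m = m}
      add_mem' := fun hv hw g => by rw [smul_add, hv g, hw g]
      zero_mem' := fun g => smul_zero _
      smul_mem' := fun t m hm g => by rw [y_smul_comm, hm g] }
  let τ : M →ₗ[T] M := ∑ g, yop D M g * e
  have hτ : ∀ m, τ m = ∑ g, D.y g • e m := by
    intro m
    change (∑ g, yop D M g * e) m = _
    rw [LinearMap.sum_apply]
    rfl
  have hτ1 : ∀ m g, D.y g • τ m = τ m := by
    intro m g
    rw [hτ, Finset.smul_sum]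
    apply Fintype.sum_equiv (Equiv.mulLeft g)
    intro h
    rw [Equiv.coe_mulLeft, y_mul]
  have he' : ∀ m, ∑ g, D.y g • e (D.y g⁻¹ • m) = m := by
    intro m
    have := LinearMap.congr_fun he m
    rw [LinearMap.sum_apply] at this
    exact this
  have hτ2 : ∀ w, (∀ g, D.y g • w = w) → τ w = w := by
    intro w hw
    rw [hτ]
    conv_rhs => rw [← he' w]
    apply Finset.sum_congr rfl
    intro g _
    rw [hw]
  obtain ⟨h1, h2⟩ := lemmaE hP hp (act D M) τ.toAddMonoidHom hτ1 hτ2 (by
    intro c hc
    refine ⟨∑ g, D.y g • e (c g⁻¹), fun h => ?_⟩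
    rw [act_apply, Finset.smul_sum]
    have e1 : ∀ g, D.y h • D.y g • e (c g⁻¹) = D.y (h * g) • e (c (h * g)⁻¹) +
        D.y (h * g) • e (D.y (h * g)⁻¹ • c h) := by
      intro g
      rw [← y_mul, ← smul_add, ← map_add]
      congr 2
      have := hc (h * g)⁻¹ h
      rw [mul_inv_rev, inv_mul_cancel_right] at this
      rw [this, mul_inv_rev, act_apply]
    rw [Finset.sum_congr rfl (fun g _ => e1 g), Finset.sum_add_distrib]
    have e2 : ∑ g, D.y (h * g) • e (c (h * g)⁻¹) = ∑ g, D.y g • e (c g⁻¹) :=
      Fintype.sum_equiv (Equiv.mulLeft h) _ _ (fun g => rfl)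
    have e3 : ∑ g, D.y (h * g) • e (D.y (h * g)⁻¹ • c h) = ∑ g, D.y g • e (D.y g⁻¹ • c h) :=
      Fintype.sum_equiv (Equiv.mulLeft h) _ _ (fun g => rfl)
    rw [e2, e3, he']
    abel)
  -- the isomorphism
  let θ0 : M →ₗ[T] IndG D N :=
    { toFun := fun m g => ⟨τ (D.y g • m), fun h => hτ1 _ h⟩
      map_add' := fun v w => by
        funext g
        apply Subtype.ext
        change τ (D.y g • (v + w)) = τ (D.y g • v) + τ (D.y g • w)
        rw [smul_add, map_add]
      map_smul' := fun t v => by
        funext g
        apply Subtype.ext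
        change τ (D.y g • (t • v)) = t • τ (D.y g • v)
        rw [y_smul_comm, map_smul] }
  let θ : M →ₗ[S] IndG D N := toLin D θ0 (by
    intro h v
    funext g
    refine Eq.trans ?_ (y_smul_ind_apply D N h g _).symm
    apply Subtype.ext
    change τ (D.y g • D.y h • v) = τ (D.y (g * h) • v)
    rw [y_mul])
  refine ⟨ModuleCat.of T N, ⟨(LinearEquiv.ofBijective θ ⟨?_, ?_⟩).symm⟩⟩
  · rw [← LinearMap.ker_eq_bot, LinearMap.ker_eq_bot']
    intro m hm
    apply h1
    intro g
    have := congrArg Subtype.val (congrFun hm g)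
    exact this
  · intro φ
    obtain ⟨m, hm⟩ := h2 (fun g => (φ g).1) (fun g h => (φ g).2 h)
    refine ⟨m, ?_⟩
    funext g
    exact Subtype.ext (hm g)

end Pool.Agent.Q112.RigG
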